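import Pool.Agent.Helper53.PT.GoalsB2

/-!
# MP_705522_gt, project (T): packet PT-E2P (near the pair)
-/

namespace Pool.Agent.Helper7.PT

open MeasureTheory Set Filter Topology
open Pool.Agent.Helper53.PT

theorem exp_slope {x y : ℝ} (hx : 0 ≤ x) (hxy : x ≤ y) :
    (1 - Real.exp (-y)) * x ≤ (1 - Real.exp (-x)) * y := by
  rcases eq_or_lt_of_le (hx.trans hxy) with h | h
  · have h0 : x = 0 := by linarith
    subst h0
    rw [← h]
  · have hc := convexOn_exp.2 (mem_univ (0 : ℝ)) (mem_univ (-y))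
      (show 0 ≤ 1 - x / y by rw [sub_nonneg, div_le_one h]; exact hxy)
      (show 0 ≤ x / y by positivity) (by ring)
    have e : (1 - x / y) • (0 : ℝ) + (x / y) • (-y) = -x := by
      simp only [smul_eq_mul]; field_simp; ring
    rw [e] at hc
    simp only [smul_eq_mul, Real.exp_zero, mul_one] at hc
    have h2 : (1 - x / y + x / y * Real.exp (-y)) * y = y - x + x * Real.exp (-y) := by field_simp
    have h3 := mul_le_mul_of_nonneg_right hc h.le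
    rw [h2] at h3
    nlinarith

theorem one_sub_prod_le {ι : Type} (S : Finset ι) (x : ι → ℝ) (h : ∀ i ∈ S, |x i| ≤ 1) :
    |∏ i ∈ S, x i| ≤ 1 ∧ 1 - ∏ i ∈ S, x i ≤ ∑ i ∈ S, (1 - x i) := by
  classical
  induction S using Finset.induction_on with
  | empty => simp
  | insert a S ha ih =>
    obtain ⟨h1, h2⟩ := ih (fun i hi => h i (Finset.mem_insert_of_mem hi))
    have h3 := h a (Finset.mem_insert_self _ _)
    rw [Finset.prod_insert ha, Finset.sum_insert ha]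
    refine ⟨?_, ?_⟩
    · rw [abs_mul]
      exact mul_le_one₀ h3 (abs_nonneg _) h1
    · have h4 := (abs_le.1 h1).2
      have h5 := (abs_le.1 h3).2
      nlinarith

theorem abs_prod_le_of_mem {ι : Type} (S : Finset ι) (x : ι → ℝ) (h : ∀ i ∈ S, |x i| ≤ 1)
    {j : ι} (hj : j ∈ S) : |∏ i ∈ S, x i| ≤ |x j| := by
  classical
  rw [← Finset.mul_prod_erase S x hj, abs_mul]
  have := (one_sub_prod_le (S.erase j) x (fun i hi => h i (Finset.mem_of_mem_erase hi))).1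
  exact mul_le_of_le_one_right (abs_nonneg _) this

section
variable {θ : ℝ} (h0 : 0 < θ) (h1 : θ < 1 / 2)
include h0 h1

theorem sg_pos : 0 < sg θ := by
  unfold sg
  exact Real.sqrt_pos.2 (mul_pos (Real.Gamma_pos_of_pos (by linarith))
    (Real.Gamma_pos_of_pos (by linarith)))

/-- power means -/
theorem pm {a c : ℝ} (ha : 0 ≤ a) (hc : 0 ≤ c) :
    √(a + c) * ((1 / 2 : ℝ) ^ (1 / (2 * θ)) + (1 / 2 : ℝ) ^ (1 / (2 * θ))) ^ θ ≤
      (a ^ (1 / (2 * θ)) + c ^ (1 / (2 * θ))) ^ θ := by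
  have hr : 1 ≤ 1 / (2 * θ) := by
    rw [le_div_iff₀ (by linarith)]; linarith
  have hj := (convexOn_rpow hr).2 (mem_Ici.2 ha) (mem_Ici.2 hc) (show (0 : ℝ) ≤ 1 / 2 by norm_num)
    (show (0 : ℝ) ≤ 1 / 2 by norm_num) (by norm_num)
  simp only [smul_eq_mul] at hj
  have e1 : (1 / 2 : ℝ) * a + 1 / 2 * c = (a + c) * (1 / 2) := by ring
  rw [e1, Real.mul_rpow (by linarith) (by norm_num)] at hj
  have h2 : (a + c) ^ (1 / (2 * θ)) * ((1 / 2 : ℝ) ^ (1 / (2 * θ)) + (1 / 2 : ℝ) ^ (1 / (2 * θ))) ≤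
      a ^ (1 / (2 * θ)) + c ^ (1 / (2 * θ)) := by nlinarith
  have hp : 0 ≤ (a + c) ^ (1 / (2 * θ)) := Real.rpow_nonneg (by linarith) _
  have hq : 0 ≤ (1 / 2 : ℝ) ^ (1 / (2 * θ)) := Real.rpow_nonneg (by norm_num) _
  have h3 := Real.rpow_le_rpow (by positivity) h2 h0.le
  rw [Real.mul_rpow hp (by positivity), ← Real.rpow_mul (by linarith)] at h3
  have e2 : 1 / (2 * θ) * θ = 1 / 2 := by field_simp
  rw [e2, ← Real.sqrt_eq_rpow] at h3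
  exact h3

/-- the value at the pair -/
theorem G_pair : G θ ![(1 / 2 : ℝ), 1 / 2] =
    Real.pi / 2 / sg θ * ((1 / 2 : ℝ) ^ (1 / (2 * θ)) + (1 / 2 : ℝ) ^ (1 / (2 * θ))) ^ θ := by
  rw [← (aPAIR h0 h1 (a := 1 / 2) (b := 1 / 2) (by norm_num) (by norm_num)).2]
  unfold G PP
  simp [Fin.prod_univ_two]

omit h0 h1 in
theorem PP_split {n : ℕ} (t : Fin n → ℝ) {i k : Fin n} (hik : i ≠ k) (ξ : ℝ) :
    PP θ t ξ = f0 θ (t i * ξ ^ 2) * f0 θ (t k * ξ ^ 2) *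
      ∏ l ∈ (Finset.univ.erase i).erase k, f0 θ (t l * ξ ^ 2) := by
  unfold PP
  rw [← Finset.mul_prod_erase Finset.univ _ (Finset.mem_univ i),
    ← Finset.mul_prod_erase (Finset.univ.erase i) _ (Finset.mem_erase.2 ⟨hik.symm, Finset.mem_univ k⟩),
    mul_assoc]

theorem G_emb {n : ℕ} {i k : Fin n} (hik : i ≠ k) :
    Sx (fun l : Fin n => if l = i then (1 / 2 : ℝ) else if l = k then 1 / 2 else 0) ∧
    G θ (fun l : Fin n => if l = i then (1 / 2 : ℝ) else if l = k then 1 / 2 else 0) =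
      G θ ![(1 / 2 : ℝ), 1 / 2] := by
  refine ⟨⟨?_, ?_⟩, ?_⟩
  · intro l
    dsimp only
    split_ifs <;> norm_num
  · rw [← Finset.add_sum_erase Finset.univ _ (Finset.mem_univ i),
      ← Finset.add_sum_erase (Finset.univ.erase i) _ (Finset.mem_erase.2 ⟨hik.symm, Finset.mem_univ k⟩)]
    rw [Finset.sum_eq_zero]
    · simp [hik.symm]; norm_num
    · intro l hl
      simp only [Finset.mem_erase, Finset.mem_univ, and_true] at hl
      simp [hl.1, hl.2]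
  · unfold G
    refine setIntegral_congr_fun measurableSet_Ioi fun ξ _ => ?_
    rw [PP_split _ hik, Finset.prod_eq_one]
    · unfold PP
      simp [Fin.prod_univ_two, hik.symm]
    · intro l hl
      simp only [Finset.mem_erase, Finset.mem_univ, and_true] at hl
      simp [hl.1, hl.2, f0_zero h0 h1]

end

theorem tail_sum : ∑' i : ℕ, 1 / ((i : ℝ) + 16) ^ 2 ≤ 1 / 15.5 := by
  refine Real.tsum_le_of_sum_range_le (fun i => by positivity) fun N => ?_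
  have : ∀ N : ℕ, ∑ i ∈ Finset.range N, 1 / ((i : ℝ) + 16) ^ 2 ≤ 1 / 15.5 - 1 / ((N : ℝ) + 15.5) := by
    intro N
    induction N with
    | zero => simp
    | succ N ih =>
      rw [Finset.sum_range_succ]
      have h : 1 / ((N : ℝ) + 16) ^ 2 ≤ 1 / ((N : ℝ) + 15.5) - 1 / ((N : ℝ) + 1 + 15.5) := by
        rw [div_sub_div _ _ (by positivity) (by positivity), div_le_div_iff₀ (by positivity) (by positivity)]
        nlinarith
      push_cast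
      linarith
  have h2 : 0 ≤ 1 / ((N : ℝ) + 15.5) := by positivity
  linarith [this N]

theorem summ16 : Summable (fun i : ℕ => 1 / ((i : ℝ) + 16) ^ 2) := by
  have h := (Real.summable_one_div_nat_pow (p := 2)).2 (by norm_num)
  have h2 := (summable_nat_add_iff 16).2 h
  refine h2.congr fun i => ?_
  push_cast
  rfl

/-- the lower bound of the main term -/
theorem main_term (hHG : GHG) {θ : ℝ} (h0 : 0 < θ) (h1 : θ < 1 / 2) {a c e0 U16 : ℝ} {L : ℕ → ℝ}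
    (ha : 0 ≤ a) (hc : 0 ≤ c) (hac : a + c ≤ 1) (he0 : 0 < e0) (he : e0 ≤ 0.102)
    (hU : ∀ ξ, 16 ≤ ξ → -U16 ≤ f0 θ (a * ξ ^ 2) * f0 θ (c * ξ ^ 2)) (hU0 : 0 ≤ U16)
    (hL : ∀ l : ℕ, 1 ≤ l → l ≤ 15 → L l ≤ f0 θ (a * (l : ℝ) ^ 2) * f0 θ (c * (l : ℝ) ^ 2) *
      ((1 - Real.exp (-(e0 * (l : ℝ) ^ 2) / 2)) / (e0 * (l : ℝ) ^ 2))) :
    IntegrableOn (fun ξ => f0 θ (a * ξ ^ 2) * f0 θ (c * ξ ^ 2) *
      (1 - Real.exp (-(e0 * ξ ^ 2) / 2)) / ξ ^ 2) (Ioi 0) ∧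
    e0 * (1 / 4 + ∑ l ∈ Finset.Icc 1 15, L l - U16 / (15.5 * e0) - 5e-7 / e0) ≤
      ∫ ξ in Ioi (0 : ℝ), f0 θ (a * ξ ^ 2) * f0 θ (c * ξ ^ 2) *
        (1 - Real.exp (-(e0 * ξ ^ 2) / 2)) / ξ ^ 2 := by
  obtain ⟨hi, hs, hle⟩ := hHG θ h0 h1 a c e0 ha hc hac he0 he
  refine ⟨hi, le_trans ?_ hle⟩
  set h : ℕ → ℝ := fun i : ℕ => f0 θ (a * ((i : ℝ) + 1) ^ 2) * f0 θ (c * ((i : ℝ) + 1) ^ 2) *
    (1 - Real.exp (-(e0 * ((i : ℝ) + 1) ^ 2) / 2)) / ((i : ℝ) + 1) ^ 2 with hh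
  have hsplit := hs.sum_add_tsum_nat_add 15
  have hfirst : e0 * ∑ l ∈ Finset.Icc 1 15, L l ≤ ∑ i ∈ Finset.range 15, h i := by
    have e1 : ∑ l ∈ Finset.Icc 1 15, L l = ∑ i ∈ Finset.range 15, L (i + 1) := by
      rw [Finset.range_eq_Ico, Finset.sum_Ico_add' (fun l => L l) 0 15 1]
      rfl
    rw [e1, Finset.mul_sum]
    refine Finset.sum_le_sum fun i hi => ?_
    have h2 := hL (i + 1) (by omega) (by have := Finset.mem_range.1 hi; omega)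
    have h3 := mul_le_mul_of_nonneg_left h2 he0.le
    refine h3.trans (le_of_eq ?_)
    rw [hh]
    push_cast
    field_simp
  have htail : -U16 * (1 / 15.5) ≤ ∑' i : ℕ, h (i + 15) := by
    have h2 : ∑' i : ℕ, -U16 * (1 / ((i : ℝ) + 16) ^ 2) ≤ ∑' i : ℕ, h (i + 15) := by
      refine Summable.tsum_le_tsum (fun i => ?_) (summ16.mul_left _) ((summable_nat_add_iff 15).2 hs)
      rw [hh]
      push_cast
      have e2 : (i : ℝ) + 15 + 1 = (i : ℝ) + 16 := by ring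
      rw [e2]
      have hp : (0 : ℝ) < ((i : ℝ) + 16) ^ 2 := by positivity
      have h3 := hU ((i : ℝ) + 16) (by linarith [(Nat.cast_nonneg i : (0 : ℝ) ≤ (i : ℝ))])
      have h4 : 0 ≤ 1 - Real.exp (-(e0 * ((i : ℝ) + 16) ^ 2) / 2) := by
        rw [sub_nonneg, Real.exp_le_one_iff]
        have : 0 < e0 * ((i : ℝ) + 16) ^ 2 := by positivity
        linarith
      have h5 : 1 - Real.exp (-(e0 * ((i : ℝ) + 16) ^ 2) / 2) ≤ 1 := by
        linarith [Real.exp_pos (-(e0 * ((i : ℝ) + 16) ^ 2) / 2)]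
      rw [mul_one_div, div_le_div_iff_of_pos_right hp]
      nlinarith
    rw [tsum_mul_left] at h2
    refine le_trans ?_ h2
    have := tail_sum
    nlinarith
  rw [← hsplit]
  have e3 : e0 * (1 / 4 + ∑ l ∈ Finset.Icc 1 15, L l - U16 / (15.5 * e0) - 5e-7 / e0) =
      e0 / 4 + (e0 * ∑ l ∈ Finset.Icc 1 15, L l + -U16 * (1 / 15.5)) - 5e-7 := by
    field_simp
    ring
  rw [e3]
  linarith

/-- the comparison with the pair -/
theorem core (hHG : GHG) {θ : ℝ} (h0 : 0 < θ) (h1 : θ < 1 / 2) {n : ℕ} {t : Fin n → ℝ} {i k : Fin n}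
    (ht : Sx t) (hik : i ≠ k) {e0 U16 V2u J : ℝ} {L : ℕ → ℝ} {B : ℝ → ℝ}
    (hε : 0 < 1 - t i - t k) (hεe : 1 - t i - t k ≤ e0) (he : e0 ≤ 0.102)
    (hBi : IntegrableOn B (Ioi 0)) (hBJ : ∫ ξ in Ioi (0 : ℝ), B ξ ≤ J)
    (hB : ∀ ξ, 0 < ξ → f0 θ (t i * ξ ^ 2) * f0 θ (t k * ξ ^ 2) *
        ((1 - Real.exp (-(e0 * ξ ^ 2) / 2)) / (e0 * ξ ^ 2)) - B ξ ≤
      f0 θ (t i * ξ ^ 2) * f0 θ (t k * ξ ^ 2) *
        ((1 - ∏ l ∈ (Finset.univ.erase i).erase k, f0 θ (t l * ξ ^ 2)) / ((1 - t i - t k) * ξ ^ 2)))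
    (hU : ∀ ξ, 16 ≤ ξ → -U16 ≤ f0 θ (t i * ξ ^ 2) * f0 θ (t k * ξ ^ 2)) (hU0 : 0 ≤ U16)
    (hL : ∀ l : ℕ, 1 ≤ l → l ≤ 15 → L l ≤ f0 θ (t i * (l : ℝ) ^ 2) * f0 θ (t k * (l : ℝ) ^ 2) *
      ((1 - Real.exp (-(e0 * (l : ℝ) ^ 2) / 2)) / (e0 * (l : ℝ) ^ 2)))
    (hV : G θ ![(1 / 2 : ℝ), 1 / 2] ≤ V2u)
    (hfin : V2u < (1 / 4 + ∑ l ∈ Finset.Icc 1 15, L l - U16 / (15.5 * e0) - 5e-7 / e0 - J) *
      (1 + √(1 - e0))) : ¬ IsMinT θ t := by
  intro hmin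
  have hi0 := ht.1 i
  have hk0 := ht.1 k
  have he0 : 0 < e0 := hε.trans_le hεe
  obtain ⟨hD2i, hD2⟩ := main_term hHG h0 h1 hi0 hk0 (by linarith) he0 he hU hU0 hL
  set ε := 1 - t i - t k with hεdef
  set P : ℝ → ℝ := fun ξ => f0 θ (t i * ξ ^ 2) * f0 θ (t k * ξ ^ 2) with hP
  set R : ℝ → ℝ := fun ξ => ∏ l ∈ (Finset.univ.erase i).erase k, f0 θ (t l * ξ ^ 2) with hR
  obtain ⟨hG1, -⟩ := aHS h0 h1 t ht
  obtain ⟨hG2, hG2v⟩ := aPAIR h0 h1 hi0 hk0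
  have hD1i : IntegrableOn (fun ξ => (1 - PP θ t ξ) / ξ ^ 2 - (1 - P ξ) / ξ ^ 2) (Ioi 0) := hG1.sub hG2
  have hD1v : ∫ ξ in Ioi (0 : ℝ), ((1 - PP θ t ξ) / ξ ^ 2 - (1 - P ξ) / ξ ^ 2) =
      G θ t - Real.pi / 2 / sg θ * (t i ^ (1 / (2 * θ)) + t k ^ (1 / (2 * θ))) ^ θ := by
    rw [integral_sub hG1 hG2, hG2v]
    rfl
  -- the pointwise inequality, integrated
  have hmono : ∫ ξ in Ioi (0 : ℝ), ((P ξ * (1 - Real.exp (-(e0 * ξ ^ 2) / 2)) / ξ ^ 2) / e0 - B ξ) ≤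
      ∫ ξ in Ioi (0 : ℝ), ((1 - PP θ t ξ) / ξ ^ 2 - (1 - P ξ) / ξ ^ 2) / ε := by
    refine setIntegral_mono_on ((hD2i.div_const e0).sub hBi) (hD1i.div_const ε) measurableSet_Ioi ?_
    intro ξ hξ
    have hξ0 : (0 : ℝ) < ξ := hξ
    have h2 := hB ξ hξ0
    have e1 : (P ξ * (1 - Real.exp (-(e0 * ξ ^ 2) / 2)) / ξ ^ 2) / e0 =
        f0 θ (t i * ξ ^ 2) * f0 θ (t k * ξ ^ 2) *
        ((1 - Real.exp (-(e0 * ξ ^ 2) / 2)) / (e0 * ξ ^ 2)) := by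
      rw [hP]; field_simp
    have e2 : ((1 - PP θ t ξ) / ξ ^ 2 - (1 - P ξ) / ξ ^ 2) / ε =
        f0 θ (t i * ξ ^ 2) * f0 θ (t k * ξ ^ 2) *
        ((1 - ∏ l ∈ (Finset.univ.erase i).erase k, f0 θ (t l * ξ ^ 2)) / (ε * ξ ^ 2)) := by
      rw [PP_split t hik, hP]; field_simp; ring
    rw [e1, e2]
    exact h2
  rw [integral_sub (hD2i.div_const e0) hBi, integral_div, integral_div, hD1v] at hmono
  have hpi := Real.pi_pos
  have hsg := sg_pos h0 h1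
  have hpm := pm h0 h1 hi0 hk0
  have hGt : G θ t ≤ G θ ![(1 / 2 : ℝ), 1 / 2] := by
    rw [← (G_emb h0 h1 hik).2]
    exact hmin.2 _ (G_emb h0 h1 hik).1
  set V2 := G θ ![(1 / 2 : ℝ), 1 / 2] with hV2
  have hV2v : V2 = Real.pi / 2 / sg θ *
      ((1 / 2 : ℝ) ^ (1 / (2 * θ)) + (1 / 2 : ℝ) ^ (1 / (2 * θ))) ^ θ := G_pair h0 h1
  have hV2pos : 0 < V2 := by
    rw [hV2v]
    have : (0 : ℝ) < (1 / 2 : ℝ) ^ (1 / (2 * θ)) := Real.rpow_pos_of_pos (by norm_num) _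
    positivity
  have hsum1 : t i + t k = 1 - ε := by rw [hεdef]; ring
  have hG2ge : √(1 - ε) * V2 ≤
      Real.pi / 2 / sg θ * (t i ^ (1 / (2 * θ)) + t k ^ (1 / (2 * θ))) ^ θ := by
    rw [hsum1] at hpm
    have h3 := mul_le_mul_of_nonneg_left hpm (show 0 ≤ Real.pi / 2 / sg θ by positivity)
    rw [hV2v]
    linarith
  set Q := 1 / 4 + ∑ l ∈ Finset.Icc 1 15, L l - U16 / (15.5 * e0) - 5e-7 / e0 - J with hQ
  have hD2' : 1 / 4 + ∑ l ∈ Finset.Icc 1 15, L l - U16 / (15.5 * e0) - 5e-7 / e0 ≤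
      (∫ ξ in Ioi (0 : ℝ), P ξ * (1 - Real.exp (-(e0 * ξ ^ 2) / 2)) / ξ ^ 2) / e0 := by
    rw [le_div_iff₀ he0]
    linarith
  have hQle : Q ≤ (V2 - √(1 - ε) * V2) / ε := by
    have h4 : (G θ t - Real.pi / 2 / sg θ * (t i ^ (1 / (2 * θ)) + t k ^ (1 / (2 * θ))) ^ θ) / ε ≤
        (V2 - √(1 - ε) * V2) / ε := by
      rw [div_le_div_iff_of_pos_right hε]
      linarith
    linarith
  rw [le_div_iff₀ hε] at hQle
  have hs1 : √(1 - ε) ^ 2 = 1 - ε := Real.sq_sqrt (by linarith)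
  have hs0 : 0 ≤ √(1 - ε) := Real.sqrt_nonneg _
  have hse : √(1 - e0) ≤ √(1 - ε) := Real.sqrt_le_sqrt (by linarith)
  have hse0 : 0 ≤ √(1 - e0) := Real.sqrt_nonneg _
  have hQ2 : Q * (1 + √(1 - ε)) ≤ V2 := by
    have h5 : Q * ε * (1 + √(1 - ε)) ≤ (V2 - √(1 - ε) * V2) * (1 + √(1 - ε)) :=
      mul_le_mul_of_nonneg_right hQle (by linarith)
    have h6 : (V2 - √(1 - ε) * V2) * (1 + √(1 - ε)) = V2 * ε := by
      linear_combination (-V2) * hs1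
    rw [h6] at h5
    have h7 : ε * (Q * (1 + √(1 - ε))) ≤ ε * V2 := by linarith
    exact le_of_mul_le_mul_left h7 hε
  have hVu0 : 0 < V2u := hV2pos.trans_le hV
  have hQ0 : 0 < Q := by
    by_contra hcon
    have : Q * (1 + √(1 - e0)) ≤ 0 := mul_nonpos_of_nonpos_of_nonneg (not_lt.1 hcon) (by linarith)
    linarith
  have : Q * (1 + √(1 - e0)) ≤ Q * (1 + √(1 - ε)) := mul_le_mul_of_nonneg_left (by linarith) hQ0.le
  linarith

theorem sum_rest {n : ℕ} {t : Fin n → ℝ} (ht : Sx t) {i k : Fin n} (hik : i ≠ k) :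
    ∑ l ∈ (Finset.univ.erase i).erase k, t l = 1 - t i - t k := by
  have h1 := Finset.add_sum_erase Finset.univ t (Finset.mem_univ i)
  have h2 := Finset.add_sum_erase (Finset.univ.erase i) t
    (Finset.mem_erase.2 ⟨hik.symm, Finset.mem_univ k⟩)
  have h3 := ht.2
  linarith

/-- the pointwise inequality -/
theorem pt (hRL : GRL) (hPR : GPROD) {θ z m xW xD yN : ℝ} (hFA : FA θ z m xW xD yN) {n : ℕ}
    {t : Fin n → ℝ} {i k : Fin n} (ht : Sx t) (hik : i ≠ k) (hmax : ∀ l, t l ≤ t i)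
    {a1 a2 e0 M Pm w2 ξ1 ξ2 ξ3 K3 : ℝ} {far : ℝ → ℝ}
    (ha1 : a1 ≤ t i) (ha2 : t i ≤ a2) (hε : 0 < 1 - t i - t k) (hεe : 1 - t i - t k ≤ e0)
    (hea : e0 ≤ a1) (hM : ∀ y, z ≤ y → |f0 θ y| ≤ M)
    (hξ1 : 0 < ξ1) (hξ1z : a2 * ξ1 ^ 2 ≤ z) (hξ12 : ξ1 ≤ ξ2) (hξ2z : z ≤ (1 - a2 - e0) * ξ2 ^ 2)
    (hξ2N : a2 * ξ2 ^ 2 ≤ yN) (hξ3z : e0 * ξ3 ^ 2 ≤ z)
    (hw2 : w2 * (e0 * ξ2 ^ 2) ≤ 1 - Real.exp (-(e0 * ξ2 ^ 2) / 2))
    (hPm : ∀ ξ, ξ1 ≤ ξ → ξ ≤ ξ2 → t k * ξ ^ 2 ≤ z → z ≤ t i * ξ ^ 2 →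
      |f0 θ (t i * ξ ^ 2) * f0 θ (t k * ξ ^ 2)| ≤ Pm)
    (hK3 : 0 ≤ K3) (hfar : ∀ ξ, 0 ≤ far ξ)
    (H3 : ∀ ξ, 0 < ξ → z < t k * ξ ^ 2 → (0 ≤ f0 θ (t i * ξ ^ 2) * f0 θ (t k * ξ ^ 2) ∧
      (ξ3 < ξ → M * (f0 θ (t i * ξ ^ 2) * f0 θ (t k * ξ ^ 2)) ≤ K3 * e0)) ∨
      |f0 θ (t i * ξ ^ 2) * f0 θ (t k * ξ ^ 2)| / 2 ≤ far ξ) :
    0 ≤ (1 / 2 - w2) * Pm ∧ ∀ ξ, 0 < ξ → f0 θ (t i * ξ ^ 2) * f0 θ (t k * ξ ^ 2) *
        ((1 - Real.exp (-(e0 * ξ ^ 2) / 2)) / (e0 * ξ ^ 2)) -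
        ((Icc ξ1 ξ2).indicator (fun _ => (1 / 2 - w2) * Pm) ξ +
          (Ioi ξ3).indicator (fun ξ => K3 / ξ ^ 2) ξ + far ξ) ≤
      f0 θ (t i * ξ ^ 2) * f0 θ (t k * ξ ^ 2) *
        ((1 - ∏ l ∈ (Finset.univ.erase i).erase k, f0 θ (t l * ξ ^ 2)) / ((1 - t i - t k) * ξ ^ 2)) := by
  have h0 : 0 < θ := by linarith [hFA.th0]
  have h1 : θ < 1 / 2 := hFA.th1
  have hi0 := ht.1 i
  have hk0 := ht.1 k
  have he0 : 0 < e0 := hε.trans_le hεe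
  have hz0 := hFA.z0
  obtain ⟨-, r2, r3, -⟩ := hRL θ z m xW xD yN hFA
  have hM0 : 0 ≤ M := (abs_nonneg _).trans (hM z le_rfl)
  have hti : 0 < t i := by linarith
  -- w2 ≤ 1/2
  have hw2' : w2 ≤ 1 / 2 := by
    have hp : 0 < e0 * ξ2 ^ 2 := by
      have : 0 < ξ2 := hξ1.trans_le hξ12
      positivity
    have h2 := Real.add_one_le_exp (-(e0 * ξ2 ^ 2) / 2)
    have h3 : w2 * (e0 * ξ2 ^ 2) ≤ 1 / 2 * (e0 * ξ2 ^ 2) := by linarith
    exact le_of_mul_le_mul_right h3 hp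
  have hca : 1 - a2 - e0 ≤ t k := by linarith
  have region : ∀ ξ, 0 < ξ → t k * ξ ^ 2 ≤ z → z ≤ t i * ξ ^ 2 → ξ1 ≤ ξ ∧ ξ ≤ ξ2 := by
    intro ξ hξ h2 h3
    have hξ2 : 0 < ξ2 := hξ1.trans_le hξ12
    have hx : 0 < ξ ^ 2 := by positivity
    constructor
    · by_contra hcon
      have h4 : ξ ^ 2 < ξ1 ^ 2 := by nlinarith [not_le.1 hcon]
      have h5 : t i * ξ ^ 2 < t i * ξ1 ^ 2 := mul_lt_mul_of_pos_left h4 hti
      have h6 : t i * ξ1 ^ 2 ≤ a2 * ξ1 ^ 2 := mul_le_mul_of_nonneg_right ha2 (by positivity)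
      linarith
    · by_contra hcon
      have h4 : ξ2 ^ 2 < ξ ^ 2 := by nlinarith [not_le.1 hcon]
      have h5 : (1 - a2 - e0) * ξ2 ^ 2 ≤ t k * ξ2 ^ 2 := mul_le_mul_of_nonneg_right hca (by positivity)
      have hk : 0 < t k := by
        by_contra hcon2
        have : t k = 0 := le_antisymm (not_lt.1 hcon2) hk0
        rw [this] at h5
        linarith
      have h6 : t k * ξ2 ^ 2 < t k * ξ ^ 2 := mul_lt_mul_of_pos_left h4 hk
      linarith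
  have hPm0 : 0 ≤ Pm := by
    have hx : 0 < z / t i := div_pos hz0 hti
    have e1 : √(z / t i) ^ 2 = z / t i := Real.sq_sqrt hx.le
    have e2 : t i * √(z / t i) ^ 2 = z := by rw [e1]; field_simp
    have e3 : t k * √(z / t i) ^ 2 ≤ z :=
      (mul_le_mul_of_nonneg_right (hmax k) (by positivity)).trans e2.le
    obtain ⟨h4, h5⟩ := region _ (Real.sqrt_pos.2 hx) e3 e2.ge
    exact (abs_nonneg _).trans (hPm _ h4 h5 e3 e2.ge)
  have hK1 : 0 ≤ (1 / 2 - w2) * Pm := mul_nonneg (by linarith) hPm0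
  refine ⟨hK1, fun ξ hξ => ?_⟩
  set S := (Finset.univ.erase i).erase k with hS
  set X := ξ ^ 2 with hX
  have hX0 : 0 < X := by positivity
  set P := f0 θ (t i * X) * f0 θ (t k * X) with hP
  set R := ∏ l ∈ S, f0 θ (t l * X) with hR
  set ε := 1 - t i - t k with hεdef
  have hsum : ∑ l ∈ S, t l = ε := sum_rest ht hik
  have htl : ∀ l ∈ S, t l ≤ ε := fun l hl => by
    rw [← hsum]
    exact Finset.single_le_sum (fun j _ => ht.1 j) hl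
  have hRb := one_sub_prod_le S (fun l => f0 θ (t l * X))
    (fun l _ => (aBD h0 h1 (mul_nonneg (ht.1 l) hX0.le)).1)
  have hR1 : |R| ≤ 1 := hRb.1
  have hR2 : 1 - R ≤ ε * X / 2 := by
    refine hRb.2.trans ?_
    rw [← hsum, Finset.sum_mul, Finset.sum_div]
    refine Finset.sum_le_sum fun l _ => ?_
    have := (aBD h0 h1 (mul_nonneg (ht.1 l) hX0.le)).2.1
    linarith
  have hR3 : 0 ≤ 1 - R := by linarith [(abs_le.1 hR1).2]
  have heX : 0 < e0 * X := by positivity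
  have hεX : 0 < ε * X := by positivity
  set q1 := (1 - R) / (ε * X) with hq1
  set q2 := (1 - Real.exp (-(e0 * X) / 2)) / (e0 * X) with hq2
  have hq1a : 0 ≤ q1 := by positivity
  have hq1b : q1 ≤ 1 / 2 := by
    rw [hq1, div_le_iff₀ hεX]; linarith
  have hE1 : Real.exp (-(e0 * X) / 2) ≤ 1 := by
    rw [Real.exp_le_one_iff]; linarith
  have hq2a : 0 ≤ q2 := div_nonneg (by linarith) heX.le
  have hq2b : q2 ≤ 1 / 2 := by
    rw [hq2, div_le_iff₀ heX]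
    linarith [Real.add_one_le_exp (-(e0 * X) / 2)]
  -- all the others have arguments ≤ z
  have hsmall : (∀ l ∈ S, t l * X ≤ z) → q2 ≤ q1 := by
    intro hl
    have h2 := (hPR hRL θ z m xW xD yN hFA n S (fun l => t l * X)).1
      (fun l hl' => ⟨mul_nonneg (ht.1 l) hX0.le, hl l hl'⟩)
    have h3 : R ≤ Real.exp (-(ε * X) / 2) := by
      have := h2.2
      rw [← Finset.sum_mul, hsum] at this
      exact this
    have h4 : (1 - Real.exp (-(ε * X) / 2)) / (ε * X) ≤ q1 := by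
      rw [hq1, div_le_div_iff_of_pos_right hεX]
      linarith
    refine le_trans ?_ h4
    rw [hq2, div_le_div_iff₀ heX hεX]
    have h5 := exp_slope (x := ε * X / 2) (y := e0 * X / 2) (by positivity)
      (by have := mul_le_mul_of_nonneg_right hεe hX0.le; linarith)
    have e1 : -(e0 * X) / 2 = -(e0 * X / 2) := by ring
    have e2 : -(ε * X) / 2 = -(ε * X / 2) := by ring
    rw [e1, e2]
    linarith
  have hi1 : 0 ≤ (Icc ξ1 ξ2).indicator (fun _ => (1 / 2 - w2) * Pm) ξ :=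
    indicator_nonneg (fun _ _ => hK1) ξ
  have hi2 : 0 ≤ (Ioi ξ3).indicator (fun ξ => K3 / ξ ^ 2) ξ :=
    indicator_nonneg (fun _ _ => by positivity) ξ
  have hi3 := hfar ξ
  rcases le_or_gt (t k * X) z with hkz | hkz
  · rcases lt_or_ge (t i * X) z with hiz | hiz
    · -- region (i)
      have hP0 : 0 ≤ P := mul_nonneg (r2 _ (by positivity) hiz).le
        (r2 _ (by positivity) (lt_of_le_of_lt (mul_le_mul_of_nonneg_right (hmax k) hX0.le) hiz)).le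
      have h2 : q2 ≤ q1 := hsmall fun l hl => by
        have : t l * X ≤ t i * X := mul_le_mul_of_nonneg_right (hmax l) hX0.le
        linarith
      have h3 := mul_le_mul_of_nonneg_left h2 hP0
      linarith
    · -- region (ii)
      obtain ⟨h2, h3⟩ := region ξ hξ hkz hiz
      have h4 := hPm ξ h2 h3 hkz hiz
      have hξle : X ≤ ξ2 ^ 2 := by rw [hX]; exact pow_le_pow_left₀ hξ.le h3 2
      have hfi : f0 θ (t i * X) ≤ 0 := by
        rcases eq_or_lt_of_le hiz with h5 | h5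
        · rw [← h5, hFA.fz]
        · refine (r3 _ h5 ?_).le
          have h6 : t i * X ≤ a2 * ξ2 ^ 2 := mul_le_mul ha2 hξle hX0.le (by linarith)
          linarith
      have hfk : 0 ≤ f0 θ (t k * X) := by
        rcases eq_or_lt_of_le hkz with h5 | h5
        · rw [h5, hFA.fz]
        · exact (r2 _ (by positivity) h5).le
      have hP0 : P ≤ 0 := mul_nonpos_of_nonpos_of_nonneg hfi hfk
      have hq2w : w2 ≤ q2 := by
        have hξ20 : 0 < ξ2 := hξ1.trans_le hξ12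
        have h5 := exp_slope (x := e0 * X / 2) (y := e0 * ξ2 ^ 2 / 2) (by positivity)
          (by have := mul_le_mul_of_nonneg_left hξle he0.le; linarith)
        rw [hq2, le_div_iff₀ heX]
        have e1 : -(e0 * X) / 2 = -(e0 * X / 2) := by ring
        have e2 : -(e0 * ξ2 ^ 2) / 2 = -(e0 * ξ2 ^ 2 / 2) := by ring
        rw [e1]
        rw [e2] at hw2
        have hp : 0 < e0 * ξ2 ^ 2 := by positivity
        have h6 : w2 * (e0 * ξ2 ^ 2) * (e0 * X / 2) ≤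
            (1 - Real.exp (-(e0 * ξ2 ^ 2 / 2))) * (e0 * X / 2) :=
          mul_le_mul_of_nonneg_right hw2 (by positivity)
        have h7 : (w2 * (e0 * X)) * (e0 * ξ2 ^ 2) ≤
            (1 - Real.exp (-(e0 * X / 2))) * (e0 * ξ2 ^ 2) := by linarith
        exact le_of_mul_le_mul_right h7 hp
      have hind : (Icc ξ1 ξ2).indicator (fun _ => (1 / 2 - w2) * Pm) ξ = (1 / 2 - w2) * Pm :=
        indicator_of_mem (mem_Icc.2 ⟨h2, h3⟩) _
      rw [hind]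
      rw [abs_of_nonpos hP0] at h4
      have h8 : -P * (q1 - q2) ≤ Pm * (1 / 2 - w2) := by
        have h9 : -P * (q1 - q2) ≤ -P * (1 / 2 - w2) :=
          mul_le_mul_of_nonneg_left (by linarith) (by linarith)
        have h10 : -P * (1 / 2 - w2) ≤ Pm * (1 / 2 - w2) :=
          mul_le_mul_of_nonneg_right h4 (by linarith)
        linarith
      have e1 : -P * (q1 - q2) = P * q2 - P * q1 := by ring
      have e2 : Pm * (1 / 2 - w2) = (1 / 2 - w2) * Pm := by ring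
      rw [e1, e2] at h8
      linarith
  · rcases H3 ξ hξ hkz with ⟨hP0, hP3⟩ | hP3
    · -- region (iii)
      change 0 ≤ P at hP0
      change ξ3 < ξ → M * P ≤ K3 * e0 at hP3
      by_cases hall : ∀ l ∈ S, t l * X ≤ z
      · have h3 := mul_le_mul_of_nonneg_left (hsmall hall) hP0
        linarith
      · push Not at hall
        obtain ⟨l, hl, hlz⟩ := hall
        have h2 : z < e0 * X := by
          have : t l * X ≤ e0 * X := mul_le_mul_of_nonneg_right ((htl l hl).trans hεe) hX0.le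
          linarith
        have h3 : ξ3 < ξ := by
          by_contra hcon
          have h4 : X ≤ ξ3 ^ 2 := by rw [hX]; exact pow_le_pow_left₀ hξ.le (not_lt.1 hcon) 2
          have := mul_le_mul_of_nonneg_left h4 he0.le
          linarith
        have h4 := hP3 h3
        have hRM : |R| ≤ M := (abs_prod_le_of_mem S (fun l => f0 θ (t l * X))
          (fun l _ => (aBD h0 h1 (mul_nonneg (ht.1 l) hX0.le)).1) hl).trans (hM _ hlz.le)
        have h5 : (1 - M) / (e0 * X) ≤ q1 := by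
          rw [hq1, div_le_div_iff₀ heX hεX]
          have h6 : 1 - M ≤ 1 - R := by linarith [(abs_le.1 hRM).2]
          have h7 : ε * X ≤ e0 * X := mul_le_mul_of_nonneg_right hεe hX0.le
          exact mul_le_mul h6 h7 hεX.le hR3
        have h6 : q2 ≤ 1 / (e0 * X) := by
          rw [hq2, div_le_div_iff_of_pos_right heX]
          linarith [Real.exp_pos (-(e0 * X) / 2)]
        have h7 : P * q2 - P * q1 ≤ M * P / (e0 * X) := by
          have h8 : q2 - q1 ≤ M / (e0 * X) := by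
            have : 1 / (e0 * X) - (1 - M) / (e0 * X) = M / (e0 * X) := by
              rw [← sub_div]; ring_nf
            linarith
          have h9 := mul_le_mul_of_nonneg_left h8 hP0
          have e1 : P * (M / (e0 * X)) = M * P / (e0 * X) := by ring
          linarith
        have h8 : M * P / (e0 * X) ≤ K3 / X := by
          rw [div_le_div_iff₀ heX hX0]
          have := mul_le_mul_of_nonneg_right h4 hX0.le
          linarith
        have hind : (Ioi ξ3).indicator (fun ξ => K3 / ξ ^ 2) ξ = K3 / X :=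
          indicator_of_mem (mem_Ioi.2 h3) _
        rw [hind]
        linarith
    · -- region (iv)
      change |P| / 2 ≤ far ξ at hP3
      have h2 : P * (q2 - q1) ≤ |P| * (1 / 2) := by
        refine (le_abs_self _).trans ?_
        rw [abs_mul]
        refine mul_le_mul_of_nonneg_left ?_ (abs_nonneg _)
        rw [abs_le]
        constructor <;> linarith
      have h3 : P * q2 - P * q1 ≤ |P| / 2 := by
        have e1 : P * (q2 - q1) = P * q2 - P * q1 := by ring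
        linarith
      linarith

theorem ind_Icc {a b K : ℝ} (ha : 0 < a) (hab : a ≤ b) :
    IntegrableOn ((Icc a b).indicator (fun _ : ℝ => K)) (Ioi 0) ∧
    ∫ ξ in Ioi (0 : ℝ), (Icc a b).indicator (fun _ : ℝ => K) ξ = K * (b - a) := by
  constructor
  · have h : Integrable ((Icc a b).indicator (fun _ : ℝ => K)) :=
      (integrable_indicator_iff measurableSet_Icc).2 (by simp)
    exact h.integrableOn
  · have hs : Ioi (0 : ℝ) ∩ Icc a b = Icc a b := inter_eq_right.2 fun x hx => lt_of_lt_of_le ha hx.1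
    rw [setIntegral_indicator measurableSet_Icc, hs]
    simp [hab, mul_comm]

theorem ind_Ioi_rpow {c K s : ℝ} (hc : 0 < c) (hs : 1 < s) :
    IntegrableOn ((Ioi c).indicator (fun ξ : ℝ => K * (c / ξ) ^ s)) (Ioi 0) ∧
    ∫ ξ in Ioi (0 : ℝ), (Ioi c).indicator (fun ξ : ℝ => K * (c / ξ) ^ s) ξ = K * c / (s - 1) := by
  have hi : IntegrableOn (fun ξ : ℝ => K * (c / ξ) ^ s) (Ioi c) := by
    have h : IntegrableOn (fun ξ : ℝ => K * c ^ s * ξ ^ (-s)) (Ioi c) :=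
      (integrableOn_Ioi_rpow_of_lt (show -s < -1 by linarith) hc).const_mul (K * c ^ s)
    refine h.congr_fun (fun ξ hξ => ?_) measurableSet_Ioi
    have hξ0 : 0 < ξ := hc.trans hξ
    change K * c ^ s * ξ ^ (-s) = K * (c / ξ) ^ s
    rw [Real.div_rpow hc.le hξ0.le, Real.rpow_neg hξ0.le]
    ring
  constructor
  · exact ((integrable_indicator_iff measurableSet_Ioi).2 hi).integrableOn
  · have hs' : Ioi (0 : ℝ) ∩ Ioi c = Ioi c := inter_eq_right.2 (Ioi_subset_Ioi hc.le)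
    rw [setIntegral_indicator measurableSet_Ioi, hs']
    have h := integral_Ioi_rpow_of_lt (show -s < -1 by linarith) hc
    have e : ∫ ξ in Ioi c, K * (c / ξ) ^ s = (K * c ^ s) * ∫ ξ in Ioi c, ξ ^ (-s) := by
      rw [← integral_const_mul]
      refine setIntegral_congr_fun measurableSet_Ioi fun ξ hξ => ?_
      have hξ0 : 0 < ξ := hc.trans hξ
      change K * (c / ξ) ^ s = K * c ^ s * ξ ^ (-s)
      rw [Real.div_rpow hc.le hξ0.le, Real.rpow_neg hξ0.le]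
      ring
    rw [e, h]
    have h2 : c ^ s * c ^ (-s + 1) = c := by
      rw [← Real.rpow_add hc]; simp
    have e2 : ∀ p : ℝ, K * c ^ s * (-p / (-s + 1)) = K * (c ^ s * p) / (s - 1) := by
      intro p
      rw [show -s + 1 = -(s - 1) by ring, neg_div_neg_eq]
      ring
    rw [e2, h2]

theorem ind_Ioi {c K : ℝ} (hc : 0 < c) :
    IntegrableOn ((Ioi c).indicator (fun ξ : ℝ => K / ξ ^ 2)) (Ioi 0) ∧
    ∫ ξ in Ioi (0 : ℝ), (Ioi c).indicator (fun ξ : ℝ => K / ξ ^ 2) ξ = K / c := by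
  have h := ind_Ioi_rpow (K := K / c ^ 2) hc (show (1 : ℝ) < 2 by norm_num)
  have e : (Ioi c).indicator (fun ξ : ℝ => K / ξ ^ 2) =
      (Ioi c).indicator (fun ξ : ℝ => K / c ^ 2 * (c / ξ) ^ (2 : ℝ)) := by
    ext ξ
    by_cases hξ : ξ ∈ Ioi c
    · rw [indicator_of_mem hξ, indicator_of_mem hξ]
      have hξ0 : 0 < ξ := hc.trans hξ
      have e2 : (c / ξ) ^ (2 : ℝ) = (c / ξ) ^ 2 := by norm_cast
      rw [e2]
      field_simp
    · rw [indicator_of_notMem hξ, indicator_of_notMem hξ]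
  rw [e]
  refine ⟨h.1, h.2.trans ?_⟩
  field_simp
  norm_num

/-- the assembly, one form for both cases -/
theorem assemble (hRL : GRL) (hHG : GHG) (hPR : GPROD) {θ z m xW xD yN : ℝ} (hFA : FA θ z m xW xD yN)
    {n : ℕ} {t : Fin n → ℝ} {i k : Fin n} (ht : Sx t) (hik : i ≠ k) (hmax : ∀ l, t l ≤ t i)
    {a1 a2 e0 M Pm w2 J1 J2 J3 U16 V2u ξ1 ξ2 ξ3 K3 : ℝ} {L : ℕ → ℝ} {far : ℝ → ℝ}
    (ha1 : a1 ≤ t i) (ha2 : t i ≤ a2) (hε : 0 < 1 - t i - t k) (hεe : 1 - t i - t k ≤ e0)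
    (he : e0 ≤ 0.102)
    (hea : e0 ≤ a1) (hM : ∀ y, z ≤ y → |f0 θ y| ≤ M)
    (hξ1 : 0 < ξ1) (hξ1z : a2 * ξ1 ^ 2 ≤ z) (hξ12 : ξ1 ≤ ξ2) (hξ2z : z ≤ (1 - a2 - e0) * ξ2 ^ 2)
    (hξ2N : a2 * ξ2 ^ 2 ≤ yN) (hξ3 : 0 < ξ3) (hξ3z : e0 * ξ3 ^ 2 ≤ z)
    (hw2 : w2 * (e0 * ξ2 ^ 2) ≤ 1 - Real.exp (-(e0 * ξ2 ^ 2) / 2))
    (hPm : ∀ ξ, ξ1 ≤ ξ → ξ ≤ ξ2 → t k * ξ ^ 2 ≤ z → z ≤ t i * ξ ^ 2 →
      |f0 θ (t i * ξ ^ 2) * f0 θ (t k * ξ ^ 2)| ≤ Pm)
    (hJ1 : (1 / 2 - w2) * (ξ2 - ξ1) * Pm ≤ J1)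
    (hK3 : 0 ≤ K3) (hJ3 : K3 ≤ J3 * ξ3) (hfar : ∀ ξ, 0 ≤ far ξ)
    (hfi : IntegrableOn far (Ioi 0)) (hfJ : ∫ ξ in Ioi (0 : ℝ), far ξ ≤ J2)
    (H3 : ∀ ξ, 0 < ξ → z < t k * ξ ^ 2 → (0 ≤ f0 θ (t i * ξ ^ 2) * f0 θ (t k * ξ ^ 2) ∧
      (ξ3 < ξ → M * (f0 θ (t i * ξ ^ 2) * f0 θ (t k * ξ ^ 2)) ≤ K3 * e0)) ∨
      |f0 θ (t i * ξ ^ 2) * f0 θ (t k * ξ ^ 2)| / 2 ≤ far ξ)
    (hU : ∀ ξ, 16 ≤ ξ → -U16 ≤ f0 θ (t i * ξ ^ 2) * f0 θ (t k * ξ ^ 2)) (hU0 : 0 ≤ U16)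
    (hL : ∀ l : ℕ, 1 ≤ l → l ≤ 15 → L l ≤ f0 θ (t i * (l : ℝ) ^ 2) * f0 θ (t k * (l : ℝ) ^ 2) *
      ((1 - Real.exp (-(e0 * (l : ℝ) ^ 2) / 2)) / (e0 * (l : ℝ) ^ 2)))
    (hV : G θ ![(1 / 2 : ℝ), 1 / 2] ≤ V2u)
    (hfin : V2u < (1 / 4 + ∑ l ∈ Finset.Icc 1 15, L l - U16 / (15.5 * e0) - 5e-7 / e0 - J1 - J2 - J3) *
      (1 + √(1 - e0))) : ¬ IsMinT θ t := by
  have h0 : 0 < θ := by linarith [hFA.th0]
  have h1 : θ < 1 / 2 := hFA.th1
  obtain ⟨-, hpt⟩ := pt hRL hPR hFA ht hik hmax ha1 ha2 hε hεe hea hM hξ1 hξ1z hξ12 hξ2z hξ2N hξ3z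
    hw2 hPm hK3 hfar H3
  have hA := ind_Icc (K := (1 / 2 - w2) * Pm) hξ1 hξ12
  have hC := ind_Ioi (K := K3) hξ3
  refine core hHG h0 h1 ht hik (J := J1 + J3 + J2) hε hεe he ((hA.1.add hC.1).add hfi) ?_ hpt hU hU0 hL hV ?_
  · have e1 : ∫ ξ in Ioi (0 : ℝ), ((Icc ξ1 ξ2).indicator (fun _ => (1 / 2 - w2) * Pm) ξ +
          (Ioi ξ3).indicator (fun ξ => K3 / ξ ^ 2) ξ + far ξ) =
        (∫ ξ in Ioi (0 : ℝ), (Icc ξ1 ξ2).indicator (fun _ => (1 / 2 - w2) * Pm) ξ) +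
          (∫ ξ in Ioi (0 : ℝ), (Ioi ξ3).indicator (fun ξ => K3 / ξ ^ 2) ξ) +
          ∫ ξ in Ioi (0 : ℝ), far ξ := by
      refine (integral_add (hA.1.add hC.1) hfi).trans ?_
      congr 1
      exact integral_add hA.1 hC.1
    have h3 : K3 / ξ3 ≤ J3 := by rw [div_le_iff₀ hξ3]; exact hJ3
    refine le_trans (le_of_eq e1) ?_
    rw [hA.2, hC.2]
    have h4 : (1 / 2 - w2) * Pm * (ξ2 - ξ1) = (1 / 2 - w2) * (ξ2 - ξ1) * Pm := by ring
    linarith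
  · have e1 : 1 / 4 + ∑ l ∈ Finset.Icc 1 15, L l - U16 / (15.5 * e0) - 5e-7 / e0 - (J1 + J3 + J2) =
      1 / 4 + ∑ l ∈ Finset.Icc 1 15, L l - U16 / (15.5 * e0) - 5e-7 / e0 - J1 - J2 - J3 := by ring
    rw [e1]
    exact hfin

/-- decay of the pair beyond `ξ6` -/
theorem far_decay {θ g c0 c1 c2 : ℝ} (hFP : FP θ g c0 c1 c2) {a c κ ξ6 ξ : ℝ} (hκc : κ ≤ c)
    (hca : c ≤ a) (hκ : 64 ≤ κ * ξ6 ^ 2) (h6 : 0 < ξ6) (hξ : ξ6 ≤ ξ) :
    |f0 θ (a * ξ ^ 2) * f0 θ (c * ξ ^ 2)| ≤ c0 ^ 2 * (ξ6 / ξ) ^ (4 * g) := by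
  have hc0 : 0 ≤ c0 := by
    have := hFP.p0 64 le_rfl
    rw [div_self (by norm_num), Real.one_rpow, mul_one] at this
    exact (abs_nonneg _).trans this
  have hξ0 : 0 < ξ := h6.trans_le hξ
  have hg : 0 ≤ g := by linarith [hFP.g0]
  have hr : 0 < ξ6 / ξ := div_pos h6 hξ0
  have key : ∀ b, κ ≤ b → |f0 θ (b * ξ ^ 2)| ≤ c0 * (ξ6 / ξ) ^ (2 * g) := by
    intro b hb
    have h2 : ξ6 ^ 2 ≤ ξ ^ 2 := pow_le_pow_left₀ h6.le hξ 2
    have hκ0 : 0 < κ := by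
      by_contra hcon
      have : κ * ξ6 ^ 2 ≤ 0 := mul_nonpos_of_nonpos_of_nonneg (not_lt.1 hcon) (by positivity)
      linarith
    have h3 : κ * ξ6 ^ 2 ≤ b * ξ6 ^ 2 := mul_le_mul_of_nonneg_right hb (by positivity)
    have h4 : b * ξ6 ^ 2 ≤ b * ξ ^ 2 := mul_le_mul_of_nonneg_left h2 (by linarith)
    have h5 : 64 ≤ b * ξ ^ 2 := by linarith
    refine (hFP.p0 _ h5).trans (mul_le_mul_of_nonneg_left ?_ hc0)
    have h7 : 64 / (b * ξ ^ 2) ≤ (ξ6 / ξ) ^ 2 := by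
      rw [div_pow, div_le_div_iff₀ (by positivity) (by positivity)]
      have := mul_le_mul_of_nonneg_right (hκ.trans h3) (show 0 ≤ ξ ^ 2 by positivity)
      linarith
    refine (Real.rpow_le_rpow (by positivity) h7 hg).trans (le_of_eq ?_)
    rw [← Real.rpow_natCast, ← Real.rpow_mul hr.le]
    norm_num
  rw [abs_mul]
  refine (mul_le_mul (key a (hκc.trans hca)) (key c hκc) (abs_nonneg _) (by positivity)).trans
    (le_of_eq ?_)
  have e1 : 4 * g = 2 * g + 2 * g := by ring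
  rw [e1, Real.rpow_add hr]
  ring

theorem gE2P2 : GE2P2 := by
  intro hRL hHG hPR θ z m xW xD yN g c0 c1 c2 hFA hFP n t i k a1 a2 e0 M Pm w2 P3 J1 J2 J3 U16 V2u
    ξ1 ξ2 ξ3 L ht hik hmax ha10 ha1 ha2 hε hεe he hea h1ae hM hM1 hξ1 hξ1z hξ12 hξ2z hξ2N hξ3 hξ3z
    hw2 hPm hJ1 hJ2 hJ3 hcase hU hU0 hL hV hfin
  have h0 : 0 < θ := by linarith [hFA.th0]
  have h1 : θ < 1 / 2 := hFA.th1
  obtain ⟨-, r2, r3, -⟩ := hRL θ z m xW xD yN hFA
  have he0 : 0 < e0 := hε.trans_le hεe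
  have hM0 : 0 ≤ M := (abs_nonneg _).trans (hM z le_rfl)
  have hz0 := hFA.z0
  rcases hcase with ⟨hneg, hP3, hMP3⟩ | ⟨ξ5, ξ6, ξ7, ξ8, ξ9, P5, P7, P8, P9, h25, h5N, h57, h78, h89, h96,
    h664, h3or, hP5, hP7, hP8, hP9, hJ2'⟩
  · have hP30 : 0 ≤ P3 := (abs_nonneg _).trans (hP3 ξ3 le_rfl)
    have hneg' : ∀ x, z < x → f0 θ x < 0 := by
      intro x hx
      rcases le_or_gt m x with h | h
      · exact hneg x h
      · exact r3 x hx (h.le.trans hFA.mN)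
    refine assemble hRL hHG hPR hFA ht hik hmax (K3 := M * P3 / e0) (far := fun _ => 0) (J2 := J2)
      ha1 ha2 hε hεe he hea hM hξ1 hξ1z hξ12 hξ2z hξ2N hξ3 hξ3z hw2 hPm hJ1 (by positivity) ?_
      (fun _ => le_rfl) (by simp) (by simpa using hJ2) ?_ hU hU0 hL hV hfin
    · rw [div_le_iff₀ he0]
      linarith
    · intro ξ hξ hz
      left
      have hX : 0 ≤ ξ ^ 2 := by positivity
      have hz2 : z < t i * ξ ^ 2 := hz.trans_le (mul_le_mul_of_nonneg_right (hmax k) hX)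
      have hPpos : 0 ≤ f0 θ (t i * ξ ^ 2) * f0 θ (t k * ξ ^ 2) :=
        mul_nonneg_of_nonpos_of_nonpos (hneg' _ hz2).le (hneg' _ hz).le
      refine ⟨hPpos, fun h3 => ?_⟩
      rw [div_mul_cancel₀ _ he0.ne']
      exact mul_le_mul_of_nonneg_left ((le_abs_self _).trans (hP3 ξ h3.le)) hM0
  · have hc0 : 0 ≤ c0 := by
      have := hFP.p0 64 le_rfl
      rw [div_self (by norm_num), Real.one_rpow, mul_one] at this
      exact (abs_nonneg _).trans this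
    have hξ5 : 0 < ξ5 := by linarith
    have hξ7 : 0 < ξ7 := by linarith
    have hξ8 : 0 < ξ8 := by linarith
    have hξ9 : 0 < ξ9 := by linarith
    have hξ6 : 0 < ξ6 := by linarith
    have hP50 : 0 ≤ P5 := (abs_nonneg _).trans (hP5 ξ5 le_rfl)
    have hP70 : 0 ≤ P7 := (abs_nonneg _).trans (hP7 ξ7 le_rfl)
    have hP80 : 0 ≤ P8 := (abs_nonneg _).trans (hP8 ξ8 le_rfl)
    have hP90 : 0 ≤ P9 := (abs_nonneg _).trans (hP9 ξ9 le_rfl)
    have hg : (1 : ℝ) < 4 * g := by linarith [hFP.g0]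
    have I5 := ind_Icc (K := P5 / 2) hξ5 h57
    have I7 := ind_Icc (K := P7 / 2) hξ7 h78
    have I8 := ind_Icc (K := P8 / 2) hξ8 h89
    have I9 := ind_Icc (K := P9 / 2) hξ9 h96
    have I6 := ind_Ioi_rpow (K := c0 ^ 2 / 2) hξ6 hg
    have n5 : ∀ ξ, 0 ≤ (Icc ξ5 ξ7).indicator (fun _ : ℝ => P5 / 2) ξ :=
      fun ξ => indicator_nonneg (fun _ _ => by positivity) ξ
    have n7 : ∀ ξ, 0 ≤ (Icc ξ7 ξ8).indicator (fun _ : ℝ => P7 / 2) ξ :=
      fun ξ => indicator_nonneg (fun _ _ => by positivity) ξ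
    have n8 : ∀ ξ, 0 ≤ (Icc ξ8 ξ9).indicator (fun _ : ℝ => P8 / 2) ξ :=
      fun ξ => indicator_nonneg (fun _ _ => by positivity) ξ
    have n9 : ∀ ξ, 0 ≤ (Icc ξ9 ξ6).indicator (fun _ : ℝ => P9 / 2) ξ :=
      fun ξ => indicator_nonneg (fun _ _ => by positivity) ξ
    have n6 : ∀ ξ, 0 ≤ (Ioi ξ6).indicator (fun ξ : ℝ => c0 ^ 2 / 2 * (ξ6 / ξ) ^ (4 * g)) ξ := by
      intro ξ
      refine indicator_nonneg (fun x hx => ?_) ξ
      have : 0 < x := hξ6.trans hx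
      positivity
    -- the constant K3
    obtain ⟨K3, hK30, hK3J, hK3b⟩ : ∃ K3 : ℝ, 0 ≤ K3 ∧ K3 ≤ J3 * ξ3 ∧ ∀ ξ, ξ3 < ξ → ξ < ξ5 →
        0 ≤ f0 θ (t i * ξ ^ 2) * f0 θ (t k * ξ ^ 2) →
        M * (f0 θ (t i * ξ ^ 2) * f0 θ (t k * ξ ^ 2)) ≤ K3 * e0 := by
      rcases h3or with h | ⟨hP3, hMP3⟩
      · exact ⟨0, le_rfl, by positivity, fun ξ h3 h5 _ => absurd (h3.trans h5) (not_lt.2 h)⟩
      · have hP30 : 0 ≤ P3 := (abs_nonneg _).trans (hP3 ξ3 le_rfl)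
        refine ⟨M * P3 / e0, by positivity, ?_, fun ξ h3 _ _ => ?_⟩
        · rw [div_le_iff₀ he0]
          linarith
        · rw [div_mul_cancel₀ _ he0.ne']
          exact mul_le_mul_of_nonneg_left ((le_abs_self _).trans (hP3 ξ h3.le)) hM0
    refine assemble hRL hHG hPR hFA ht hik hmax (K3 := K3) (far := fun ξ =>
      (Icc ξ5 ξ7).indicator (fun _ : ℝ => P5 / 2) ξ + (Icc ξ7 ξ8).indicator (fun _ : ℝ => P7 / 2) ξ +
      (Icc ξ8 ξ9).indicator (fun _ : ℝ => P8 / 2) ξ + (Icc ξ9 ξ6).indicator (fun _ : ℝ => P9 / 2) ξ +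
      (Ioi ξ6).indicator (fun ξ : ℝ => c0 ^ 2 / 2 * (ξ6 / ξ) ^ (4 * g)) ξ) (J2 := J2)
      ha1 ha2 hε hεe he hea hM hξ1 hξ1z hξ12 hξ2z hξ2N hξ3 hξ3z hw2 hPm hJ1 hK30 hK3J
      (fun ξ => by linarith [n5 ξ, n7 ξ, n8 ξ, n9 ξ, n6 ξ])
      ((((I5.1.add I7.1).add I8.1).add I9.1).add I6.1) ?_ ?_ hU hU0 hL hV hfin
    · have hi1 := (integral_add (((I5.1.add I7.1).add I8.1).add I9.1) I6.1).trans
        (congrArg (· + _) ((integral_add ((I5.1.add I7.1).add I8.1) I9.1).trans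
        (congrArg (· + _) ((integral_add (I5.1.add I7.1) I8.1).trans
        (congrArg (· + _) (integral_add I5.1 I7.1))))))
      refine le_trans (le_of_eq hi1) ?_
      simp only [I5.2, I7.2, I8.2, I9.2, I6.2]
      refine le_trans (le_of_eq ?_) hJ2'
      ring
    · intro ξ hξ hz
      have hX : 0 ≤ ξ ^ 2 := by positivity
      have hz2 : z < t i * ξ ^ 2 := hz.trans_le (mul_le_mul_of_nonneg_right (hmax k) hX)
      rcases lt_or_ge ξ ξ5 with h5 | h5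
      · left
        have hN : t i * ξ ^ 2 ≤ yN := by
          have h6 : ξ ^ 2 ≤ ξ5 ^ 2 := pow_le_pow_left₀ hξ.le h5.le 2
          have h7 : t i * ξ ^ 2 ≤ a2 * ξ5 ^ 2 :=
            mul_le_mul ha2 h6 hX (by linarith [ht.1 i])
          linarith
        have hN2 : t k * ξ ^ 2 ≤ yN := (mul_le_mul_of_nonneg_right (hmax k) hX).trans hN
        have hPpos : 0 ≤ f0 θ (t i * ξ ^ 2) * f0 θ (t k * ξ ^ 2) :=
          mul_nonneg_of_nonpos_of_nonpos (r3 _ hz2 hN).le (r3 _ hz hN2).le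
        exact ⟨hPpos, fun h3 => hK3b ξ h3 h5 hPpos⟩
      · right
        rcases le_or_gt ξ ξ7 with h7 | h7
        · have e : (Icc ξ5 ξ7).indicator (fun _ : ℝ => P5 / 2) ξ = P5 / 2 :=
            indicator_of_mem (mem_Icc.2 ⟨h5, h7⟩) _
          linarith [hP5 ξ h5, n7 ξ, n8 ξ, n9 ξ, n6 ξ]
        rcases le_or_gt ξ ξ8 with h8 | h8
        · have e : (Icc ξ7 ξ8).indicator (fun _ : ℝ => P7 / 2) ξ = P7 / 2 :=
            indicator_of_mem (mem_Icc.2 ⟨h7.le, h8⟩) _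
          linarith [hP7 ξ h7.le, n5 ξ, n8 ξ, n9 ξ, n6 ξ]
        rcases le_or_gt ξ ξ9 with h9 | h9
        · have e : (Icc ξ8 ξ9).indicator (fun _ : ℝ => P8 / 2) ξ = P8 / 2 :=
            indicator_of_mem (mem_Icc.2 ⟨h8.le, h9⟩) _
          linarith [hP8 ξ h8.le, n5 ξ, n7 ξ, n9 ξ, n6 ξ]
        rcases le_or_gt ξ ξ6 with h6 | h6
        · have e : (Icc ξ9 ξ6).indicator (fun _ : ℝ => P9 / 2) ξ = P9 / 2 :=
            indicator_of_mem (mem_Icc.2 ⟨h9.le, h6⟩) _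
          linarith [hP9 ξ h9.le, n5 ξ, n7 ξ, n8 ξ, n6 ξ]
        · have e : (Ioi ξ6).indicator (fun ξ : ℝ => c0 ^ 2 / 2 * (ξ6 / ξ) ^ (4 * g)) ξ =
              c0 ^ 2 / 2 * (ξ6 / ξ) ^ (4 * g) := indicator_of_mem (mem_Ioi.2 h6) _
          have hd := far_decay hFP (a := t i) (c := t k) (κ := 1 - a2 - e0) (by linarith) (hmax k)
            h664 hξ6 h6.le
          rw [e]
          linarith [n5 ξ, n7 ξ, n8 ξ, n9 ξ]

end Pool.Agent.Helper7.PT
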